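import Pool.Agent.MP_cbbafe_pr.Mg.Race

open Pool.Agent.MP_cbbafe_pr

namespace Pool.Agent.Results.MP_cbbafe_pr.ThreeExtrema

/-- For `T₁ = HT` and `T₂ = HHTT` the winning probability `W` is not constant on `(0,1)` and has
(at least) three local extrema there: two local minima with a local maximum between them. -/
theorem result : ∃ a b c : ℝ, 0 < a ∧ a < b ∧ b < c ∧ c < 1 ∧
    IsLocalMin (winProb [true, false] [true, true, false, false]) a ∧
    IsLocalMax (winProb [true, false] [true, true, false, false]) b ∧
    IsLocalMin (winProb [true, false] [true, true, false, false]) c ∧
    winProb [true, false] [true, true, false, false] a <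
      winProb [true, false] [true, true, false, false] b ∧
    winProb [true, false] [true, true, false, false] c <
      winProb [true, false] [true, true, false, false] b :=
  three_extrema fun _ h0 h1 => winProb_eq h0 h1

end Pool.Agent.Results.MP_cbbafe_pr.ThreeExtrema
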